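import Pool.Agent.Results.MP_54b62b_gt.TwoAdicErdosGroup

/-!
# A locally minimal Polish abelian group whose closed subgroups are trivial or open

Stronger form of `TwoAdicErdosGroup` (MP_54b62b_gt, Q1 and Q2), for the same group
`G = {z ∈ ℤ₂ : ν(z) < ∞}`.  The group is monothetic and torsion free, its nonzero closed subgroups
are exactly the closures of the cyclic groups generated by `2^v g`, they are open of index `2^v`,
and one neighbourhood `U` of `0` contains no clopen neighbourhood of `0` of any of them.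
-/

set_option autoImplicit false

open scoped Topology
open Filter TopologicalSpace

namespace Pool.Agent.Results.MP_54b62b_gt.OnlyOpenSubgroups

open TwoAdicErdosGroup Pool.Agent.H44LM

/-- The elements divisible by `2^v` in the 2-adic integers. -/
noncomputable def KK (v : ℕ) : AddSubgroup Gp :=
  ((PadicInt.toZModPow (p := 2) v).toAddMonoidHom.comp toZ).ker

theorem mem_KK {v : ℕ} {x : Gp} : x ∈ KK v ↔ (2 : ℤ_[2]) ^ v ∣ toZ x := by
  rw [← toZ_zero_iff]
  rfl

theorem KK_nhds (v : ℕ) : (KK v : Set Gp) ∈ 𝓝 (0 : Gp) := by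
  refine mem_of_superset (Metric.ball_mem_nhds 0 (ε := (1 / 2) ^ (v + 1)) (by positivity)) ?_
  intro x hx
  rw [mem_ball_zero_iff] at hx
  have h1 := dvd_of_norm_lt hx
  refine mem_KK.2 ((pow_dvd_pow _ ?_).trans h1)
  have := le_ex v
  omega

theorem KK_open (v : ℕ) : IsOpen (KK v : Set Gp) := (KK v).isOpen_of_mem_nhds (KK_nhds v)

theorem KK_closed (v : ℕ) : IsClosed (KK v : Set Gp) :=
  AddSubgroup.isClosed_of_isOpen (KK v) (KK_open v)

theorem KK_index (v : ℕ) : (KK v).index = 2 ^ v := by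
  unfold KK
  rw [AddSubgroup.index_ker]
  have hs : Function.Surjective ((PadicInt.toZModPow (p := 2) v).toAddMonoidHom.comp toZ) := by
    intro y
    refine ⟨nat y.val, ?_⟩
    show PadicInt.toZModPow (p := 2) v (toZ (nat y.val)) = y
    rw [toZ_nat, map_natCast]
    exact ZMod.natCast_zmod_val y
  rw [AddMonoidHom.range_eq_top.2 hs, AddSubgroup.card_top, Nat.card_zmod]

theorem toZ_smul_one (v : ℕ) : toZ ((2 ^ v : ℕ) • nat 1) = (2 : ℤ_[2]) ^ v := by
  rw [map_nsmul, toZ_nat, nsmul_eq_mul]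
  push_cast
  ring

theorem closure_eq (v : ℕ) :
    (AddSubgroup.zmultiples ((2 ^ v : ℕ) • nat 1)).topologicalClosure = KK v := by
  apply le_antisymm
  · refine AddSubgroup.topologicalClosure_minimal _ ?_ (KK_closed v)
    rw [AddSubgroup.zmultiples_le, mem_KK, toZ_smul_one]
  · intro x hx
    refine mem_of_dvd _ (AddSubgroup.isClosed_topologicalClosure _) (z := (2 ^ v : ℕ) • nat 1)
        (AddSubgroup.le_topologicalClosure _ (AddSubgroup.mem_zmultiples _)) ?_
    rw [toZ_smul_one]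
    exact mem_KK.1 hx

theorem dvd_two_pow {z : ℤ_[2]} (hz : z ≠ 0) :
    z ∣ (2 : ℤ_[2]) ^ z.valuation ∧ (2 : ℤ_[2]) ^ z.valuation ∣ z := by
  have h1 := PadicInt.unitCoeff_spec hz
  have h3 : IsUnit ((PadicInt.unitCoeff hz : ℤ_[2]ˣ) : ℤ_[2]) := Units.isUnit _
  have h4 : z = (PadicInt.unitCoeff hz : ℤ_[2]) * (2 : ℤ_[2]) ^ z.valuation := by
    exact_mod_cast h1
  constructor
  · have : (PadicInt.unitCoeff hz : ℤ_[2]) * (2 : ℤ_[2]) ^ z.valuation ∣
        (2 : ℤ_[2]) ^ z.valuation := by rw [h3.mul_left_dvd]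
    rwa [← h4] at this
  · exact ⟨_, by rw [mul_comm]; exact h4⟩

theorem closed_eq (H : AddSubgroup Gp) (hH : IsClosed (H : Set Gp)) (hne : H ≠ ⊥) :
    ∃ v, H = KK v := by
  classical
  have hex : ∃ v : ℕ, ∃ z ∈ H, z ≠ 0 ∧ (toZ z).valuation = v := by
    obtain ⟨z, hz, hz0⟩ : ∃ z : Gp, z ∈ H ∧ z ≠ 0 := by
      by_contra hcon
      push Not at hcon
      exact hne ((AddSubgroup.eq_bot_iff_forall H).2 hcon)
    exact ⟨_, z, hz, hz0, rfl⟩
  refine ⟨Nat.find hex, le_antisymm (fun x hx => ?_) fun x hx => ?_⟩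
  · rcases eq_or_ne x 0 with rfl | hx0
    · exact AddSubgroup.zero_mem _
    · have h1 : toZ x ≠ 0 := fun h => hx0 (toZ_injective (by rw [h, map_zero]))
      have h2 : Nat.find hex ≤ (toZ x).valuation := Nat.find_min' hex ⟨x, hx, hx0, rfl⟩
      exact mem_KK.2 ((pow_dvd_pow _ h2).trans (dvd_two_pow h1).2)
  · obtain ⟨z, hz, hz0, hv⟩ := Nat.find_spec hex
    have h1 : toZ z ≠ 0 := fun h => hz0 (toZ_injective (by rw [h, map_zero]))
    refine mem_of_dvd H hH hz ((dvd_two_pow h1).1.trans ?_)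
    rw [hv]
    exact mem_KK.1 hx

theorem no_clopen (H : AddSubgroup Gp) (hH : IsClosed (H : Set Gp)) (hne : H ≠ ⊥) (C : Set H)
    (hC : IsClopen C) (h0 : (0 : H) ∈ C) : ∃ x ∈ C, (1 / 4 : ℝ) ≤ ‖(x : Gp)‖ := by
  by_contra hcon
  push Not at hcon
  obtain ⟨j₀, hj₀⟩ := tp_mem H hH hne
  refine erdos H (j₀ + 1) (by omega) (fun j hj => hj₀ j (by omega)) (Subtype.val '' C) ⟨0, h0, rfl⟩
    ?_ ?_ ?_ ?_
  · rintro _ ⟨x, _, rfl⟩
    exact x.2
  · rintro _ ⟨x, hx, rfl⟩
    exact hcon x hx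
  · exact hH.isClosedEmbedding_subtypeVal.isClosedMap _ hC.1
  · rintro _ ⟨x, hx, rfl⟩
    obtain ⟨ε, hε, hb⟩ := Metric.isOpen_iff.1 hC.2 x hx
    refine ⟨ε, hε, fun y hy hd => ?_⟩
    exact ⟨⟨y, hy⟩, hb (by rw [Metric.mem_ball, Subtype.dist_eq]; exact hd), rfl⟩

theorem not_locallyCompact : ¬ LocallyCompactSpace Gp := by
  intro h
  have hb := loc_compact_Haus_tot_disc_of_zero_dim (H := Gp)
  obtain ⟨C, hC, h0, hCU⟩ := hb.exists_subset_of_mem_open
    (Metric.mem_ball_self (x := (0 : Gp)) (by norm_num : (0 : ℝ) < 1 / 4)) Metric.isOpen_ball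
  have hne : (⊤ : AddSubgroup Gp) ≠ ⊥ := by
    intro h1
    have h2 : tp 0 ∈ (⊤ : AddSubgroup Gp) := AddSubgroup.mem_top _
    rw [h1, AddSubgroup.mem_bot] at h2
    exact tp_ne_zero 0 h2
  obtain ⟨x, hx, hx1⟩ := no_clopen ⊤ isClosed_univ hne (Subtype.val ⁻¹' C)
    (hC.preimage continuous_subtype_val) h0
  have h3 := hCU hx
  rw [mem_ball_zero_iff] at h3
  linarith

/-- **Main theorem.** There is a locally minimal Polish abelian group `G` without small subgroups,
with a continuous injective homomorphism to the 2-adic integers and a topological generator `g`,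
whose closed subgroups are `0` and the closures of the groups generated by `2^v g`, `v = 0, 1, …`;
the latter are open of index `2^v`, and some neighbourhood `U` of `0` does not contain a clopen
neighbourhood of `0` in any nonzero closed subgroup.  So all closed zero-dimensional subgroups are
trivial, while `G` is not a Lie group and not even locally compact. -/
theorem result :
    ∃ (G : Type) (_ : AddCommGroup G) (_ : TopologicalSpace G) (_ : IsTopologicalAddGroup G),
      PolishSpace G ∧ LocallyMinimal G ∧ SequentiallyComplete G ∧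
      (∃ f : G →+ ℤ_[2], Continuous f ∧ Function.Injective f) ∧
      (∃ V ∈ 𝓝 (0 : G), ∀ H : AddSubgroup G, (H : Set G) ⊆ V → H = ⊥) ∧
      (∃ g : G, Dense (AddSubgroup.zmultiples g : Set G) ∧
        (∀ v : ℕ, IsOpen
          ((AddSubgroup.zmultiples (2 ^ v • g)).topologicalClosure : Set G) ∧
          (AddSubgroup.zmultiples (2 ^ v • g)).topologicalClosure.index = 2 ^ v) ∧
        ∀ H : AddSubgroup G, IsClosed (H : Set G) →
          H = ⊥ ∨ ∃ v : ℕ, H = (AddSubgroup.zmultiples (2 ^ v • g)).topologicalClosure) ∧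
      (∃ U ∈ 𝓝 (0 : G), ∀ H : AddSubgroup G, IsClosed (H : Set G) → H ≠ ⊥ →
        ∀ C : Set H, IsClopen C → (0 : H) ∈ C → ∃ x ∈ C, (x : G) ∉ U) ∧
      (∀ H : AddSubgroup G, IsClosed (H : Set G) → ZeroDimensional H → H = ⊥) ∧
      ¬ LocallyEuclidean G ∧ ¬ LocallyCompactSpace G := by
  have hLM : LocallyMinimal Gp := locMin
  have hSC : SequentiallyComplete Gp := by
    intro u hu
    refine complete_seq u ?_
    rw [Metric.cauchySeq_iff]
    intro ε hε
    obtain ⟨N, hN⟩ := hu (Metric.ball 0 ε) (Metric.ball_mem_nhds _ hε)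
    refine ⟨N, fun m hm n hn => ?_⟩
    have := hN m hm n hn
    rw [mem_ball_zero_iff] at this
    rwa [dist_eq_norm]
  refine ⟨Gp, inferInstance, inferInstance, inferInstance, inferInstance, hLM, hSC,
    ⟨toZ, continuous_toZ, toZ_injective⟩, ?_, ⟨nat 1, ?_, ?_, ?_⟩, ?_, ?_, ?_, not_locallyCompact⟩
  · refine ⟨Metric.ball 0 (1 / 4), Metric.ball_mem_nhds _ (by norm_num), fun H hH => ?_⟩
    rw [AddSubgroup.eq_bot_iff_forall]
    exact no_small_subgroup H fun x hx => by simpa using hH hx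
  · intro x
    have h1 : x ∈ (AddSubgroup.zmultiples (nat 1)).topologicalClosure := by
      refine mem_of_dvd _ (AddSubgroup.isClosed_topologicalClosure _) (z := nat 1)
        (AddSubgroup.le_topologicalClosure _ (AddSubgroup.mem_zmultiples _)) ?_
      rw [toZ_nat]
      simp
    exact h1
  · intro v
    rw [closure_eq]
    exact ⟨KK_open v, KK_index v⟩
  · intro H hH
    rcases eq_or_ne H ⊥ with h | h
    · exact Or.inl h
    · obtain ⟨v, hv⟩ := closed_eq H hH h
      exact Or.inr ⟨v, hv.trans (closure_eq v).symm⟩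
  · refine ⟨Metric.ball 0 (1 / 4), Metric.ball_mem_nhds _ (by norm_num), ?_⟩
    intro H hH hne C hC h0
    obtain ⟨x, hx, hx1⟩ := no_clopen H hH hne C hC h0
    refine ⟨x, hx, fun h => ?_⟩
    rw [mem_ball_zero_iff] at h
    linarith
  · intro H hH hz
    by_contra hne
    exact not_zeroDim H hH hne hz.2
  · intro h
    obtain ⟨n, e, he⟩ := h 0
    exact not_euclidean n e he

end Pool.Agent.Results.MP_54b62b_gt.OnlyOpenSubgroups
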